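import Pool.Agent.Y836.UK.GB

/-!
# Isotropic forms: there is a quadratic Gröbner basis

Let `t` be an isotropic vector with `b_1 t_1 ≠ 0`. In coordinates in which `t` is the smallest and
`x_1` the second smallest variable, all products of two variables except one are leading monomials
of quadrics of the ideal.
-/

set_option autoImplicit false

namespace Pool.Agent.Y836.UK

open Pool.Agent.Results.MP_8dd27d_al.Disproof MvPolynomial

universe u

variable {K : Type u} [Field K] {n : ℕ} {b : Fin n → K}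

/-- The degree lexicographic order after a permutation of the variables. -/
noncomputable def permOrder (σ : Fin n ≃ Fin n) : MonomialOrder.{0, 0} (Fin n) where
  syn := (MonomialOrder.degLex (σ := Fin n)).syn
  toSyn := (Finsupp.domCongr σ).trans (MonomialOrder.degLex (σ := Fin n)).toSyn
  toSyn_monotone := by
    intro a c h
    apply (MonomialOrder.degLex (σ := Fin n)).toSyn_monotone
    intro i
    exact h _

lemma exists_order (i₁ i₂ : Fin n) (h : i₁ ≠ i₂) : ∃ m : MonomialOrder.{0, 0} (Fin n),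
    (∀ e d : Fin n →₀ ℕ, m.toSyn e ≤ m.toSyn d → e.degree ≤ d.degree) ∧
    (∀ j, j ≠ i₁ → j ≠ i₂ →
      m.toSyn (Finsupp.single i₁ 1) < m.toSyn (Finsupp.single j 1)) ∧
    m.toSyn (Finsupp.single i₂ 1) < m.toSyn (Finsupp.single i₁ 1) := by
  have hn : 2 ≤ n := by
    have h1 := i₁.2
    have h2 := i₂.2
    have h3 : i₁.1 ≠ i₂.1 := fun h' => h (Fin.ext h')
    omega
  let l : Fin n := ⟨n - 1, by omega⟩
  let s : Fin n := ⟨n - 2, by omega⟩
  have hls : s ≠ l := by
    intro h'
    have := congrArg Fin.val h'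
    simp only [l, s] at this
    omega
  let e₁ : Fin n ≃ Fin n := Equiv.swap i₂ l
  have hk : e₁ i₁ ≠ l := by
    intro h'
    have : e₁ i₂ = l := Equiv.swap_apply_left _ _
    exact h (e₁.injective (h'.trans this.symm))
  let σ : Fin n ≃ Fin n := e₁.trans (Equiv.swap (e₁ i₁) s)
  have hσ2 : σ i₂ = l := by
    show Equiv.swap (e₁ i₁) s (e₁ i₂) = l
    have : e₁ i₂ = l := Equiv.swap_apply_left _ _
    rw [this]
    exact Equiv.swap_apply_of_ne_of_ne hk.symm hls.symm
  have hσ1 : σ i₁ = s := Equiv.swap_apply_left _ _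
  have hsingle : ∀ i, (permOrder σ).toSyn (Finsupp.single i 1) =
      (MonomialOrder.degLex (σ := Fin n)).toSyn (Finsupp.single (σ i) 1) := by
    intro i
    show (MonomialOrder.degLex (σ := Fin n)).toSyn (Finsupp.domCongr σ (Finsupp.single i 1)) = _
    rw [Finsupp.domCongr_apply, Finsupp.equivMapDomain_single]
  refine ⟨permOrder σ, ?_, ?_, ?_⟩
  · intro e d hed
    have h1 : ∀ f : Fin n →₀ ℕ, (Finsupp.domCongr σ f).degree = f.degree := by
      intro f
      rw [Finsupp.degree_eq_sum, Finsupp.degree_eq_sum]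
      exact Equiv.sum_comp σ.symm fun i => f i
    have h2 : (MonomialOrder.degLex (σ := Fin n)).toSyn (Finsupp.domCongr σ e) ≤
        (MonomialOrder.degLex (σ := Fin n)).toSyn (Finsupp.domCongr σ d) := hed
    rw [MonomialOrder.degLex_le_iff] at h2
    have h3 := Finsupp.DegLex.monotone_degree h2
    simp only [ofDegLex_toDegLex] at h3
    rw [h1, h1] at h3
    exact h3
  · intro j hj1 hj2
    rw [hsingle, hsingle, hσ1]
    refine MonomialOrder.degLex_single_lt_iff.2 ?_
    have h1 : σ j ≠ s := fun h' => hj1 (σ.injective (h'.trans hσ1.symm))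
    have h2 : σ j ≠ l := fun h' => hj2 (σ.injective (h'.trans hσ2.symm))
    have h3 := (σ j).2
    have h4 : (σ j).1 ≠ n - 2 := fun h' => h1 (Fin.ext h')
    have h5 : (σ j).1 ≠ n - 1 := fun h' => h2 (Fin.ext h')
    show (σ j).1 < n - 2
    omega
  · rw [hsingle, hsingle, hσ1, hσ2]
    refine MonomialOrder.degLex_single_lt_iff.2 ?_
    show n - 2 < n - 1
    omega

lemma lin_single (i : Fin n) : (lin (Pi.single i 1) : MvPolynomial (Fin n) K) = X i := by
  rw [lin, Fintype.sum_eq_single i]
  · simp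
  · intro j hj
    simp [Pi.single_eq_of_ne hj]

lemma lin_add (v w : Fin n → K) : lin (v + w) = lin v + lin w := by
  rw [lin, lin, lin, ← Finset.sum_add_distrib]
  exact Finset.sum_congr rfl fun i _ => by rw [Pi.add_apply, C_add]; ring

lemma C_mul_lin (a : K) (v : Fin n → K) : C a * lin v = lin (a • v) := by
  rw [lin, lin, Finset.mul_sum]
  exact Finset.sum_congr rfl fun i _ => by rw [Pi.smul_apply, smul_eq_mul, C_mul]; ring

lemma aeval_lin (v : Fin n → K) (i₂ : Fin n) (P : MvPolynomial (Fin n) K) :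
    aeval (fun i => if i = i₂ then P else X i) (lin v) = lin v + C (v i₂) * (P - X i₂) := by
  have h1 : aeval (fun i => if i = i₂ then P else X i) (lin v) =
      ∑ i, C (v i) * (if i = i₂ then P else X i) := by
    rw [lin, map_sum]
    refine Finset.sum_congr rfl fun i _ => ?_
    rw [map_mul, aeval_X, aeval_C]
    rfl
  have h2 : ∑ i, (C (v i) * (if i = i₂ then P else X i) - C (v i) * X i) =
      C (v i₂) * (P - X i₂) := by
    rw [Fintype.sum_eq_single i₂]
    · rw [if_pos rfl]; ring
    · intro j hj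
      rw [if_neg hj]; ring
  rw [Finset.sum_sub_distrib] at h2
  rw [h1, ← h2, lin]
  ring

lemma exists_phi (t : Fin n → K) (i₂ : Fin n) (ht : t i₂ ≠ 0) :
    ∃ φ : MvPolynomial (Fin n) K ≃ₐ[K] MvPolynomial (Fin n) K,
      (∀ i, (φ (X i)).IsHomogeneous 1) ∧
        ∀ i, φ.symm (X i) = lin (if i = i₂ then t else Pi.single i 1) := by
  let P : MvPolynomial (Fin n) K := C (t i₂)⁻¹ * (X i₂ - lin t) + X i₂
  have hP : P.IsHomogeneous 1 := by
    have h1 := (isHomogeneous_C (Fin n) (t i₂)⁻¹).mul ((isHomogeneous_X K i₂).sub (lin_hom t))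
    rw [zero_add] at h1
    exact h1.add (isHomogeneous_X K i₂)
  have hCC : (C (t i₂) * C (t i₂)⁻¹ : MvPolynomial (Fin n) K) = 1 := by
    rw [← C_mul, mul_inv_cancel₀ ht, C_1]
  let f : MvPolynomial (Fin n) K →ₐ[K] MvPolynomial (Fin n) K :=
    aeval fun i => if i = i₂ then P else X i
  let g : MvPolynomial (Fin n) K →ₐ[K] MvPolynomial (Fin n) K :=
    aeval fun i => if i = i₂ then lin t else X i
  have hfX : ∀ i, f (X i) = if i = i₂ then P else X i := fun i => aeval_X _ _
  have hgX : ∀ i, g (X i) = if i = i₂ then lin t else X i := fun i => aeval_X _ _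
  have hfl : f (lin t) = X i₂ := by
    show aeval (fun i => if i = i₂ then P else X i) (lin t) = _
    rw [aeval_lin]
    simp only [P]
    linear_combination (X i₂ - lin t) * hCC
  have hgl : g (lin t) = lin t + C (t i₂) * (lin t - X i₂) := aeval_lin t i₂ (lin t)
  have h1 : f.comp g = AlgHom.id K _ := by
    apply MvPolynomial.algHom_ext
    intro i
    rw [AlgHom.comp_apply, hgX, AlgHom.id_apply]
    by_cases hi : i = i₂
    · rw [if_pos hi, hfl, hi]
    · rw [if_neg hi, hfX, if_neg hi]
  have h2 : g.comp f = AlgHom.id K _ := by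
    apply MvPolynomial.algHom_ext
    intro i
    rw [AlgHom.comp_apply, hfX, AlgHom.id_apply]
    by_cases hi : i = i₂
    · rw [if_pos hi, hi]
      have hC : g (C (t i₂)⁻¹) = C (t i₂)⁻¹ := g.commutes _
      simp only [P]
      rw [map_add, map_mul, map_sub, hC, hgX, if_pos rfl, hgl]
      linear_combination (X i₂ - lin t) * hCC
    · rw [if_neg hi, hgX, if_neg hi]
  refine ⟨AlgEquiv.ofAlgHom f g h1 h2, ?_, ?_⟩
  · intro i
    show (f (X i)).IsHomogeneous 1
    rw [hfX]
    split_ifs
    · exact hP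
    · exact isHomogeneous_X K i
  · intro i
    show g (X i) = _
    rw [hgX]
    split_ifs
    · rfl
    · rw [lin_single]

theorem gQuadratic_of_isotropic (h2 : ∃ i j : Fin n, i ≠ j ∧ b i ≠ 0 ∧ b j ≠ 0) (t : Fin n → K)
    (ht : ∑ i, b i * t i ^ 2 = 0) (i₁ : Fin n) (h1 : b i₁ * t i₁ ≠ 0) :
    GQuadratic.{u, 0} (JB b) := by
  classical
  have hb1 : b i₁ ≠ 0 := left_ne_zero_of_mul h1
  have ht1 : t i₁ ≠ 0 := right_ne_zero_of_mul h1
  obtain ⟨i₂, h12, hi2⟩ : ∃ i₂, i₁ ≠ i₂ ∧ t i₂ ≠ 0 := by
    by_contra hcon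
    push Not at hcon
    have h3 : ∑ i, b i * t i ^ 2 = b i₁ * t i₁ ^ 2 :=
      Fintype.sum_eq_single i₁ (fun j hj => by rw [hcon j hj.symm]; ring)
    rw [ht] at h3
    exact mul_ne_zero hb1 (pow_ne_zero 2 ht1) h3.symm
  obtain ⟨φ, hφ, hψ⟩ := exists_phi t i₂ hi2
  obtain ⟨m, H1, H2, H3⟩ := exists_order i₁ i₂ h12
  refine ⟨φ, m, hφ, ?_⟩
  let A : Fin n → Fin n → K := fun i => if i = i₂ then t else Pi.single i 1
  have hA1 : A i₁ = Pi.single i₁ 1 := if_neg h12
  have hA2 : A i₂ = t := if_pos rfl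
  let S : MvPolynomial (Fin n) K →+* TB b :=
    (toT.comp (Ideal.Quotient.mk (JB b))).comp (φ.symm : MvPolynomial (Fin n) K →+* _)
  have hSap : ∀ f, S f = toT (Ideal.Quotient.mk (JB b) (φ.symm f)) := fun f => rfl
  have hS : ∀ f, f ∈ (JB b).map φ ↔ S f = 0 := by
    intro f
    rw [hSap, ← mem_JB_iff h2]
    constructor
    · intro h
      rw [Ideal.mem_map_of_equiv] at h
      obtain ⟨x, hx, rfl⟩ := h
      rw [AlgEquiv.symm_apply_apply]
      exact hx
    · intro h
      have := Ideal.mem_map_of_mem φ h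
      rwa [AlgEquiv.apply_symm_apply] at this
  have hSX : ∀ i, S (X i) = ⟨0, A i, 0⟩ := by
    intro i
    rw [hSap, hψ, toT_lin]
  have hSC : ∀ a : K, S (C a) = ⟨a, 0, 0⟩ := by
    intro a
    rw [hSap]
    have : φ.symm (C a) = C a := φ.symm.commutes a
    rw [this]
    exact toT_cst a
  have hSXX : ∀ (a : K) (i j), S (C a * (X i * X j)) = ⟨0, 0, a * bil b (A i) (A j)⟩ := by
    intro a i j
    rw [map_mul, map_mul, hSX, hSX, hSC]
    ext <;> simp
  have hB0 : bil b (A i₁) (A i₂) ≠ 0 := by
    rw [hA1, hA2, bil_single_left, mul_one]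
    exact h1
  have hB2 : bil b (A i₂) (A i₂) = 0 := by
    rw [hA2, ← ht]
    exact Finset.sum_congr rfl fun i _ => by ring
  have hle1 : ∀ k, k ≠ i₂ → m.toSyn (Finsupp.single i₁ 1) ≤ m.toSyn (Finsupp.single k 1) := by
    intro k hk
    by_cases hk1 : k = i₁
    · rw [hk1]
    · exact (H2 k hk1 hk).le
  -- the order of the products of two variables
  have hlt : ∀ i j, ¬ ((i = i₁ ∧ j = i₂) ∨ (i = i₂ ∧ j = i₁)) → ¬ (i = i₂ ∧ j = i₂) →
      m.toSyn (Finsupp.single i₁ 1 + Finsupp.single i₂ 1) <
        m.toSyn (Finsupp.single i 1 + Finsupp.single j 1) := by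
    intro i j hn1 hn2
    rw [map_add, map_add]
    by_cases hi : i = i₂
    · have hj2 : j ≠ i₂ := fun h => hn2 ⟨hi, h⟩
      have hj1 : j ≠ i₁ := fun h => hn1 (Or.inr ⟨hi, h⟩)
      rw [hi, add_comm]
      exact add_lt_add_right (H2 j hj1 hj2) _
    · by_cases hj : j = i₂
      · have hi1 : i ≠ i₁ := fun h => hn1 (Or.inl ⟨h, hj⟩)
        rw [hj]
        exact add_lt_add_left (H2 i hi1 hi) _
      · exact add_lt_add_of_le_of_lt (hle1 i hi) (lt_of_lt_of_le H3 (hle1 j hj))
  have hXXdeg : ∀ i j, m.degree (X i * X j : MvPolynomial (Fin n) K) =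
      Finsupp.single i 1 + Finsupp.single j 1 := by
    intro i j
    rw [MonomialOrder.degree_mul (X_ne_zero i) (X_ne_zero j), MonomialOrder.degree_X,
      MonomialOrder.degree_X]
  have hXXhom : ∀ i j, (X i * X j : MvPolynomial (Fin n) K).IsHomogeneous 2 :=
    fun i j => (isHomogeneous_X _ _).mul (isHomogeneous_X _ _)
  -- quadrics with prescribed leading monomials
  have hquad : ∀ i j, ¬ ((i = i₁ ∧ j = i₂) ∨ (i = i₂ ∧ j = i₁)) →
      ∃ q ∈ (JB b).map φ, q ≠ 0 ∧ q.IsHomogeneous 2 ∧
        m.degree q = Finsupp.single i 1 + Finsupp.single j 1 := by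
    intro i j hn1
    by_cases hβ : bil b (A i) (A j) = 0
    · refine ⟨X i * X j, ?_, mul_ne_zero (X_ne_zero i) (X_ne_zero j), hXXhom i j, hXXdeg i j⟩
      rw [hS]
      have := hSXX 1 i j
      rw [hβ, mul_zero, C_1, one_mul] at this
      exact this
    · have hn2 : ¬ (i = i₂ ∧ j = i₂) := by
        rintro ⟨rfl, rfl⟩
        exact hβ hB2
      have hc : bil b (A i) (A j) / bil b (A i₁) (A i₂) ≠ 0 := div_ne_zero hβ hB0
      have hd2 : m.degree (C (bil b (A i) (A j) / bil b (A i₁) (A i₂)) * (X i₁ * X i₂) :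
          MvPolynomial (Fin n) K) = Finsupp.single i₁ 1 + Finsupp.single i₂ 1 := by
        rw [MonomialOrder.degree_mul (by rw [Ne, C_eq_zero]; exact hc)
          (mul_ne_zero (X_ne_zero _) (X_ne_zero _)), MonomialOrder.degree_C, zero_add, hXXdeg]
      have hd : m.degree (X i * X j - C (bil b (A i) (A j) / bil b (A i₁) (A i₂)) *
          (X i₁ * X i₂) : MvPolynomial (Fin n) K) = Finsupp.single i 1 + Finsupp.single j 1 := by
        rw [MonomialOrder.degree_sub_of_lt, hXXdeg]
        rw [hd2, hXXdeg]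
        exact hlt i j hn1 hn2
      refine ⟨X i * X j - C (bil b (A i) (A j) / bil b (A i₁) (A i₂)) * (X i₁ * X i₂), ?_, ?_, ?_,
        hd⟩
      · rw [hS, map_sub, hSXX]
        have := hSXX 1 i j
        rw [C_1, one_mul, one_mul] at this
        rw [this, sub_eq_add_neg]
        ext
        · simp
        · simp
        · simp only [TB.add_s, TB.neg_s, TB.zero_s]
          field_simp
          ring
      · intro h0
        rw [h0, MonomialOrder.degree_zero] at hd
        have := DFunLike.congr_fun hd i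
        simp at this
        omega
      · have h5 := (isHomogeneous_C (Fin n) (bil b (A i) (A j) / bil b (A i₁) (A i₂))).mul
          (hXXhom i₁ i₂)
        rw [zero_add] at h5
        exact (hXXhom i j).sub h5
  intro f hf hf0
  set d := m.degree f with hd
  by_cases hex : ∃ i j, ¬ ((i = i₁ ∧ j = i₂) ∨ (i = i₂ ∧ j = i₁)) ∧
      Finsupp.single i 1 + Finsupp.single j 1 ≤ d
  · obtain ⟨i, j, hn1, hle⟩ := hex
    obtain ⟨q, hq1, hq2, hq3, hq4⟩ := hquad i j hn1
    exact ⟨q, hq1, hq2, hq3, by rw [hq4]; exact hle⟩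
  exfalso
  push Not at hex
  have hbad : ∀ i j, Finsupp.single i 1 + Finsupp.single j 1 ≤ d →
      (i = i₁ ∧ j = i₂) ∨ (i = i₂ ∧ j = i₁) := by
    intro i j hle
    by_contra hcon
    exact hex i j (by push Not at hcon; exact hcon) hle
  have hin : d ∈ f.support := (MonomialOrder.degree_mem_support_iff (m := m) f).mpr hf0
  have hD : d.degree ≤ 2 := by
    by_contra hD
    push Not at hD
    have key : ∀ e : Fin n →₀ ℕ, 0 < e.degree → ∃ i, Finsupp.single i 1 ≤ e := by
      intro e he
      have hne : e ≠ 0 := by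
        rintro rfl
        simp at he
      obtain ⟨i, hi⟩ := Finsupp.ne_iff.mp hne
      rw [Finsupp.zero_apply] at hi
      exact ⟨i, by rw [Finsupp.single_le_iff]; omega⟩
    obtain ⟨i, hi⟩ := key d (by omega)
    obtain ⟨d1, hd1⟩ := exists_add_of_le hi
    have e1 : d.degree = 1 + d1.degree := by rw [hd1, map_add, Finsupp.degree_single]
    obtain ⟨j, hj⟩ := key d1 (by omega)
    obtain ⟨d2, hd2⟩ := exists_add_of_le hj
    have e2 : d1.degree = 1 + d2.degree := by rw [hd2, map_add, Finsupp.degree_single]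
    obtain ⟨k, hk⟩ := key d2 (by omega)
    obtain ⟨d3, hd3⟩ := exists_add_of_le hk
    have e3 : d = Finsupp.single i 1 + (Finsupp.single j 1 + (Finsupp.single k 1 + d3)) := by
      rw [hd1, hd2, hd3]
    have c1 := hbad i j (by rw [e3, ← add_assoc]; exact le_self_add)
    have c2 := hbad i k (by
      rw [e3, show Finsupp.single i 1 + (Finsupp.single j 1 + (Finsupp.single k 1 + d3)) =
        Finsupp.single i 1 + Finsupp.single k 1 + (Finsupp.single j 1 + d3) by abel]
      exact le_self_add)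
    have c3 := hbad j k (by
      rw [e3, show Finsupp.single i 1 + (Finsupp.single j 1 + (Finsupp.single k 1 + d3)) =
        Finsupp.single j 1 + Finsupp.single k 1 + (Finsupp.single i 1 + d3) by abel]
      exact le_self_add)
    rcases c1 with ⟨a1, a2⟩ | ⟨a1, a2⟩ <;> rcases c2 with ⟨b1, b2⟩ | ⟨b1, b2⟩ <;>
      rcases c3 with ⟨g1, g2⟩ | ⟨g1, g2⟩ <;> first
        | exact h12 (a1.symm.trans b1)
        | exact h12 (b1.symm.trans a1)
        | exact h12 (a2.symm.trans g1)
        | exact h12 (g1.symm.trans a2)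
        | exact h12 (b2.symm.trans g2)
        | exact h12 (g2.symm.trans b2)
  have hSf : S f = 0 := (hS f).1 hf
  have hsum : ∑ e ∈ f.support, S (monomial e (coeff e f)) = 0 := by
    rw [← map_sum, support_sum_monomial_coeff, hSf]
  have hedeg : ∀ e ∈ f.support, e.degree ≤ d.degree := fun e he =>
    H1 e d (MonomialOrder.le_degree (m := m) he)
  have hmono : ∀ (i j) (a : K), (monomial (Finsupp.single i 1 + Finsupp.single j 1) a :
      MvPolynomial (Fin n) K) = C a * (X i * X j) := by
    intro i j a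
    rw [X, X, monomial_mul, C_mul_monomial]
    simp
  have hone : ∀ e : Fin n →₀ ℕ, e.degree ≤ 1 → ∀ a : K, ∃ (a' : K) (v : Fin n → K),
      φ.symm (monomial e a) = C a' + lin v := by
    intro e he a
    by_cases he0 : e = 0
    · refine ⟨a, 0, ?_⟩
      have h3 : φ.symm (C a) = C a := φ.symm.commutes a
      rw [he0]
      have h4 : (lin (0 : Fin n → K) : MvPolynomial (Fin n) K) = 0 := by simp [lin]
      rw [h4, add_zero]
      exact h3
    · obtain ⟨i, hi⟩ := Finsupp.ne_iff.mp he0
      rw [Finsupp.zero_apply] at hi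
      obtain ⟨e', he'⟩ := exists_add_of_le (show Finsupp.single i 1 ≤ e by
        rw [Finsupp.single_le_iff]; omega)
      have h5 : e'.degree = 0 := by
        rw [he', map_add, Finsupp.degree_single] at he
        omega
      have h6 : e' = 0 := (Finsupp.degree_eq_zero_iff e').1 h5
      have h7 : (monomial e a : MvPolynomial (Fin n) K) = C a * X i := by
        rw [he', h6, add_zero, X, C_mul_monomial, mul_one]
      refine ⟨0, a • (if i = i₂ then t else Pi.single i 1), ?_⟩
      have h3 : φ.symm (C a) = C a := φ.symm.commutes a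
      rw [h7, map_mul, h3, hψ, C_mul_lin, C_0, zero_add]
  by_cases hD2 : d.degree = 2
  · obtain ⟨i, j, hij⟩ := exists_two d hD2
    have hM : d = Finsupp.single i₁ 1 + Finsupp.single i₂ 1 := by
      rcases hbad i j (by rw [← hij]) with ⟨a1, a2⟩ | ⟨a1, a2⟩
      · rw [hij, a1, a2]
      · rw [hij, a1, a2, add_comm]
    have hs := congrArg TB.s hsum
    have hsadd : ∀ (T : Finset (Fin n →₀ ℕ)) (F : (Fin n →₀ ℕ) → TB b),
        (∑ e ∈ T, F e).s = ∑ e ∈ T, (F e).s := by
      intro T F
      induction T using Finset.induction_on with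
      | empty => simp
      | insert x T hx ih => rw [Finset.sum_insert hx, Finset.sum_insert hx, TB.add_s, ih]
    rw [hsadd, Finset.sum_eq_single d] at hs
    · rw [hM, hmono, hSXX] at hs
      have h3 : coeff (Finsupp.single i₁ 1 + Finsupp.single i₂ 1) f *
          bil b (A i₁) (A i₂) = 0 := hs
      rw [hM, mem_support_iff] at hin
      exact mul_ne_zero hin hB0 h3
    · intro e he hne
      have hle := MonomialOrder.le_degree (m := m) he
      have hltd : m.toSyn e < m.toSyn d := lt_of_le_of_ne hle fun h => hne (m.toSyn.injective h)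
      by_cases he2 : e.degree = 2
      · obtain ⟨k, l, hkl⟩ := exists_two e he2
        rw [hkl, hmono, hSXX]
        show _ * bil b (A k) (A l) = 0
        by_cases hkl2 : k = i₂ ∧ l = i₂
        · rw [hkl2.1, hkl2.2, hB2, mul_zero]
        · exfalso
          by_cases hkl1 : (k = i₁ ∧ l = i₂) ∨ (k = i₂ ∧ l = i₁)
          · apply hne
            rw [hM, hkl]
            rcases hkl1 with ⟨a1, a2⟩ | ⟨a1, a2⟩
            · rw [a1, a2]
            · rw [a1, a2, add_comm]
          · have := hlt k l hkl1 hkl2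
            rw [← hM, ← hkl] at this
            exact lt_asymm hltd this
      · have h3 : e.degree ≤ 1 := by
          have := hedeg e he
          omega
        obtain ⟨a', v, hav⟩ := hone e h3 (coeff e f)
        rw [hSap, hav, map_add, map_add, toT_lin]
        have h4 : toT (Ideal.Quotient.mk (JB b) (C a')) = ⟨a', 0, 0⟩ := toT_cst a'
        rw [h4]
        simp
    · intro hnot
      exact absurd hin hnot
  · have hall : ∃ (a' : K) (v : Fin n → K), φ.symm f = C a' + lin v := by
      have h3 : φ.symm f = ∑ e ∈ f.support, φ.symm (monomial e (coeff e f)) := by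
        rw [← map_sum, support_sum_monomial_coeff]
      rw [h3]
      refine Finset.sum_induction _ (fun p => ∃ (a' : K) (v : Fin n → K), p = C a' + lin v)
        ?_ ?_ ?_
      · rintro p q ⟨a, v, rfl⟩ ⟨a', v', rfl⟩
        exact ⟨a + a', v + v', by rw [lin_add, C_add]; ring⟩
      · exact ⟨0, 0, by simp [lin]⟩
      · intro e he
        have := hedeg e he
        exact hone e (by omega) _
    obtain ⟨a', v, hav⟩ := hall
    rw [hSap, hav, map_add, map_add, toT_lin] at hSf
    have h4 : toT (Ideal.Quotient.mk (JB b) (C a')) = ⟨a', 0, 0⟩ := toT_cst a'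
    rw [h4] at hSf
    have h5 := congrArg TB.k hSf
    have h6 := congrArg TB.v hSf
    simp at h5 h6
    rw [h5, h6] at hav
    apply hf0
    have h7 : φ.symm f = 0 := by rw [hav]; simp [lin]
    rw [← AlgEquiv.apply_symm_apply φ f, h7, map_zero]

end Pool.Agent.Y836.UK
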