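import Pool.Agent.Y836.UK.Model

/-!
# The ideals of the algebras with Hilbert function `1, n, 1`

`JB b` is generated by `x_i x_j`, `i ≠ j`, and `b_j x_i ^ 2 - b_i x_j ^ 2`. If at least two of the
`b_i` are nonzero, then the quotient is the model `TB b`, and it is universally Koszul.
-/

set_option autoImplicit false

namespace Pool.Agent.Y836.UK

open Pool.Agent.Results.MP_8dd27d_al.Disproof MvPolynomial

universe u w

variable {K : Type u} [Field K] {n : ℕ}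

/-- The ideal generated by `x_i x_j`, `i ≠ j`, and all `b_j x_i ^ 2 - b_i x_j ^ 2`. -/
noncomputable def JB (b : Fin n → K) : Ideal (MvPolynomial (Fin n) K) :=
  Ideal.span {p | (∃ i j : Fin n, i ≠ j ∧ p = X i * X j) ∨
    ∃ i j : Fin n, p = C (b j) * X i ^ 2 - C (b i) * X j ^ 2}

variable {b : Fin n → K}

lemma JB_hom : ∀ p ∈ JB b, ∀ i : ℕ, homogeneousComponent i p ∈ JB b := by
  intro p hp i
  let _ := MvPolynomial.gradedAlgebra (σ := Fin n) (R := K)
  refine homogeneousComponent_mem_of_mem ?_ hp i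
  apply Ideal.homogeneous_span
  rintro q (⟨i, j, hij, rfl⟩ | ⟨i, j, rfl⟩)
  · exact ⟨2, (isHomogeneous_X _ _).mul (isHomogeneous_X _ _)⟩
  · exact ⟨2, (isHomogeneous_C_mul_X_pow _ _ 2).sub (isHomogeneous_C_mul_X_pow _ _ 2)⟩

lemma JB_standard : IsStandard (JB b) := by
  refine ⟨JB_hom, ?_⟩
  have h0 : ∀ i, (X i : MvPolynomial (Fin n) K) ∈ Ideal.span (Set.range (X : Fin n → _)) :=
    fun i => Ideal.subset_span (Set.mem_range_self _)
  rw [JB, Ideal.span_le]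
  rintro q (⟨i, j, hij, rfl⟩ | ⟨i, j, rfl⟩)
  · rw [pow_two]
    exact Ideal.mul_mem_mul (h0 i) (h0 j)
  · exact Ideal.sub_mem _ (Ideal.mul_mem_left _ _ (Ideal.pow_mem_pow (h0 i) 2))
      (Ideal.mul_mem_left _ _ (Ideal.pow_mem_pow (h0 j) 2))

/-- scalars of the model -/
def scT : K →+* TB b where
  toFun k := ⟨k, 0, 0⟩
  map_one' := rfl
  map_zero' := rfl
  map_add' x y := by ext <;> simp
  map_mul' x y := by ext <;> simp

lemma scT_apply (k : K) : (scT k : TB b) = ⟨k, 0, 0⟩ := rfl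

/-- The map to the model. -/
noncomputable def toT : (MvPolynomial (Fin n) K ⧸ JB b) →+* TB b :=
  Ideal.Quotient.lift (JB b) (eval₂Hom scT fun i => ⟨0, Pi.single i 1, 0⟩) (by
    intro p hp
    have hle : JB b ≤ RingHom.ker (eval₂Hom (scT : K →+* TB b)
        fun i => ⟨0, Pi.single i 1, 0⟩) := by
      rw [JB, Ideal.span_le]
      rintro q (⟨i, j, hij, rfl⟩ | ⟨i, j, rfl⟩)
      · show eval₂Hom _ _ _ = _
        rw [map_mul, eval₂Hom_X', eval₂Hom_X']
        ext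
        · simp
        · simp
        · simp [Pi.single_eq_of_ne hij]
      · show eval₂Hom _ _ _ = _
        rw [map_sub, map_mul, map_mul, map_pow, map_pow, eval₂Hom_X', eval₂Hom_X', eval₂Hom_C,
          eval₂Hom_C, scT_apply, scT_apply, pow_two, pow_two, sub_eq_add_neg]
        ext
        · simp
        · simp
        · simp; ring
    exact hle hp)

lemma toT_mk (p : MvPolynomial (Fin n) K) : toT (Ideal.Quotient.mk (JB b) p) =
    eval₂Hom (scT : K →+* TB b) (fun i => ⟨0, Pi.single i 1, 0⟩) p := rfl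

lemma toT_cst (k : K) : toT (cst (JB b) k) = ⟨k, 0, 0⟩ := by
  rw [cst, toT_mk, eval₂Hom_C]; rfl

lemma toT_X (i : Fin n) : toT (Ideal.Quotient.mk (JB b) (X i)) = ⟨0, Pi.single i 1, 0⟩ := by
  rw [toT_mk, eval₂Hom_X']

/-- The inclusion of the linear forms in the model. -/
def linT : (Fin n → K) →+ TB b where
  toFun v := ⟨0, v, 0⟩
  map_zero' := rfl
  map_add' v w := by ext <;> simp

lemma sum_lin (v : Fin n → K) :
    ∑ i, (⟨v i, 0, 0⟩ : TB b) * ⟨0, Pi.single i 1, 0⟩ = ⟨0, v, 0⟩ := by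
  have h : ∀ i, (⟨v i, 0, 0⟩ : TB b) * ⟨0, Pi.single i 1, 0⟩ = linT (Pi.single i (v i)) := by
    intro i
    ext l
    · simp [linT]
    · by_cases hl : l = i
      · subst hl; simp [linT]
      · simp [linT, Pi.single_eq_of_ne hl]
    · simp [linT]
  rw [Finset.sum_congr rfl fun i _ => h i, ← map_sum, Finset.univ_sum_single]
  rfl

/-- The linear form with the coefficients `v`. -/
noncomputable def lin (v : Fin n → K) : MvPolynomial (Fin n) K := ∑ i, C (v i) * X i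

lemma lin_hom (v : Fin n → K) : (lin v).IsHomogeneous 1 :=
  IsHomogeneous.sum _ _ _ fun _ _ => isHomogeneous_C_mul_X _ _

lemma toT_lin (v : Fin n → K) : toT (Ideal.Quotient.mk (JB b) (lin v)) = ⟨0, v, 0⟩ := by
  rw [← sum_lin v, lin, map_sum, map_sum]
  refine Finset.sum_congr rfl fun i _ => ?_
  rw [map_mul, map_mul, toT_X]
  congr 1
  exact toT_cst (v i)

/-- linear forms as explicit combinations -/
lemma exists_lin (p : MvPolynomial (Fin n) K) (hp : p.IsHomogeneous 1) :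
    ∃ v : Fin n → K, p = lin v := by
  rw [← mem_homogeneousSubmodule, homogeneousSubmodule_one_eq_span_X] at hp
  induction hp using Submodule.span_induction with
  | mem f hf =>
    obtain ⟨i, rfl⟩ := hf
    refine ⟨Pi.single i 1, ?_⟩
    rw [lin, Fintype.sum_eq_single i]
    · simp
    · intro j hj
      simp [Pi.single_eq_of_ne hj]
  | zero => exact ⟨0, by simp [lin]⟩
  | add f g _ _ hf hg =>
    obtain ⟨v, h1⟩ := hf
    obtain ⟨w, h2⟩ := hg
    refine ⟨v + w, ?_⟩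
    rw [h1, h2, lin, lin, lin, ← Finset.sum_add_distrib]
    exact Finset.sum_congr rfl fun i _ => by rw [Pi.add_apply, C_add]; ring
  | smul k f _ hf =>
    obtain ⟨v, h1⟩ := hf
    refine ⟨k • v, ?_⟩
    rw [h1, lin, lin, MvPolynomial.smul_eq_C_mul, Finset.mul_sum]
    exact Finset.sum_congr rfl fun i _ => by rw [Pi.smul_apply, smul_eq_mul, C_mul]; ring

/-- The inverse map, as a function. -/
noncomputable def ofT (i₀ : Fin n) (r : TB b) : MvPolynomial (Fin n) K ⧸ JB b :=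
  cst (JB b) r.k + ∑ i, cst (JB b) (r.v i) * Ideal.Quotient.mk (JB b) (X i) +
    cst (JB b) (r.s * (b i₀)⁻¹) * Ideal.Quotient.mk (JB b) (X i₀) ^ 2

lemma toT_ofT {i₀ : Fin n} (h0 : b i₀ ≠ 0) (r : TB b) : toT (ofT i₀ r) = r := by
  rw [ofT, map_add, map_add, map_sum, map_mul, map_pow, toT_cst, toT_cst, toT_X]
  have h : ∑ i, toT (cst (JB b) (r.v i) * Ideal.Quotient.mk (JB b) (X i)) =
      (⟨0, r.v, 0⟩ : TB b) := by
    rw [← sum_lin r.v]
    exact Finset.sum_congr rfl fun i _ => by rw [map_mul, toT_X, toT_cst]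
  rw [h, pow_two]
  ext
  · simp
  · simp
  · simp only [TB.add_s, TB.mul_s, bil_single_left, Pi.single_eq_same]
    field_simp
    simp

lemma rel1 {i j : Fin n} (hij : i ≠ j) :
    Ideal.Quotient.mk (JB b) (X i) * Ideal.Quotient.mk (JB b) (X j) = 0 := by
  rw [← map_mul, Ideal.Quotient.eq_zero_iff_mem]
  exact Ideal.subset_span (Or.inl ⟨i, j, hij, rfl⟩)

lemma rel2 (i j : Fin n) : cst (JB b) (b j) * Ideal.Quotient.mk (JB b) (X i) ^ 2 =
    cst (JB b) (b i) * Ideal.Quotient.mk (JB b) (X j) ^ 2 := by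
  have : Ideal.Quotient.mk (JB b) (C (b j) * X i ^ 2 - C (b i) * X j ^ 2) = 0 := by
    rw [Ideal.Quotient.eq_zero_iff_mem]
    exact Ideal.subset_span (Or.inr ⟨i, j, rfl⟩)
  rw [map_sub, sub_eq_zero, map_mul, map_mul, map_pow, map_pow] at this
  exact this

lemma rel3 {i₀ : Fin n} (h0 : b i₀ ≠ 0) (i : Fin n) :
    Ideal.Quotient.mk (JB b) (X i) ^ 2 =
      cst (JB b) (b i * (b i₀)⁻¹) * Ideal.Quotient.mk (JB b) (X i₀) ^ 2 := by
  have h1 : cst (JB b) (b i₀)⁻¹ * cst (JB b) (b i₀) = 1 := by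
    rw [← cst_mul, inv_mul_cancel₀ h0, cst_one]
  have h2 := rel2 (b := b) i i₀
  rw [cst_mul]
  linear_combination (-Ideal.Quotient.mk (JB b) (X i) ^ 2) * h1 + cst (JB b) (b i₀)⁻¹ * h2

lemma rel4 {i₀ j₀ : Fin n} (hij : i₀ ≠ j₀) (h1 : b j₀ ≠ 0) (i : Fin n) :
    Ideal.Quotient.mk (JB b) (X i₀) ^ 2 * Ideal.Quotient.mk (JB b) (X i) = 0 := by
  by_cases hi : i = i₀
  · subst hi
    rw [rel3 h1 i, pow_two, mul_assoc, mul_assoc, rel1 hij.symm]
    ring
  · rw [pow_two, mul_assoc, rel1 (Ne.symm hi), mul_zero]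

lemma ofT_mul_X {i₀ j₀ : Fin n} (hij : i₀ ≠ j₀) (h0 : b i₀ ≠ 0) (h1 : b j₀ ≠ 0) (t : TB b)
    (i : Fin n) : ofT i₀ t * Ideal.Quotient.mk (JB b) (X i) =
      ofT i₀ ⟨0, Pi.single i t.k, t.v i * b i⟩ := by
  have e1 : (∑ j, cst (JB b) (t.v j) * Ideal.Quotient.mk (JB b) (X j)) *
      Ideal.Quotient.mk (JB b) (X i) =
        cst (JB b) (t.v i) * Ideal.Quotient.mk (JB b) (X i) ^ 2 := by
    rw [Finset.sum_mul, Fintype.sum_eq_single i]
    · ring
    · intro j hj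
      rw [mul_assoc, rel1 hj, mul_zero]
  have e2 : ∑ j, cst (JB b) ((Pi.single i t.k : Fin n → K) j) * Ideal.Quotient.mk (JB b) (X j) =
      cst (JB b) t.k * Ideal.Quotient.mk (JB b) (X i) := by
    rw [Fintype.sum_eq_single i]
    · rw [Pi.single_eq_same]
    · intro j hj
      rw [Pi.single_eq_of_ne hj, cst_zero, zero_mul]
  have e3 : cst (JB b) (t.s * (b i₀)⁻¹) * Ideal.Quotient.mk (JB b) (X i₀) ^ 2 *
      Ideal.Quotient.mk (JB b) (X i) = 0 := by
    rw [mul_assoc, rel4 hij h1 i, mul_zero]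
  unfold ofT
  simp only
  rw [e2, add_mul, add_mul, e1, e3, rel3 h0 i, cst_zero, mul_assoc (t.v i), cst_mul (t.v i)]
  ring

lemma ofT_surj {i₀ j₀ : Fin n} (hij : i₀ ≠ j₀) (h0 : b i₀ ≠ 0) (h1 : b j₀ ≠ 0)
    (r : MvPolynomial (Fin n) K ⧸ JB b) : ∃ t : TB b, ofT i₀ t = r := by
  obtain ⟨p, rfl⟩ := Ideal.Quotient.mk_surjective r
  induction p using MvPolynomial.induction_on with
  | C a =>
    refine ⟨⟨a, 0, 0⟩, ?_⟩
    unfold ofT
    simp [cst]
  | add p q hp hq =>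
    obtain ⟨t, ht⟩ := hp
    obtain ⟨t', ht'⟩ := hq
    refine ⟨t + t', ?_⟩
    rw [map_add, ← ht, ← ht']
    unfold ofT
    simp only [TB.add_k, TB.add_v, TB.add_s, Pi.add_apply, cst_add, add_mul,
      Finset.sum_add_distrib]
    ring
  | mul_X p i hp =>
    obtain ⟨t, ht⟩ := hp
    exact ⟨_, by rw [map_mul, ← ht, ofT_mul_X hij h0 h1 t i]⟩

lemma toT_bij (h2 : ∃ i j : Fin n, i ≠ j ∧ b i ≠ 0 ∧ b j ≠ 0) :
    Function.Bijective (toT (b := b)) := by
  obtain ⟨i, j, hij, hi, hj⟩ := h2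
  constructor
  · intro r r' h
    obtain ⟨t, rfl⟩ := ofT_surj hij hi hj r
    obtain ⟨t', rfl⟩ := ofT_surj hij hi hj r'
    rw [toT_ofT hi, toT_ofT hi] at h
    rw [h]
  · intro t
    exact ⟨ofT i t, toT_ofT hi t⟩

/-- The isomorphism with the model. -/
noncomputable def eT (h2 : ∃ i j : Fin n, i ≠ j ∧ b i ≠ 0 ∧ b j ≠ 0) :
    (MvPolynomial (Fin n) K ⧸ JB b) ≃+* TB b :=
  RingEquiv.ofBijective toT (toT_bij h2)

lemma isForm_iff (h2 : ∃ i j : Fin n, i ≠ j ∧ b i ≠ 0 ∧ b j ≠ 0)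
    (r : MvPolynomial (Fin n) K ⧸ JB b) : IsForm (JB b) 1 r ↔ TLin (eT h2 r) := by
  constructor
  · rintro ⟨p, hp, rfl⟩
    obtain ⟨v, rfl⟩ := exists_lin p hp
    show TLin (toT _)
    rw [toT_lin]
    exact ⟨rfl, rfl⟩
  · rintro ⟨h3, h4⟩
    refine ⟨lin (toT r).v, lin_hom _, ?_⟩
    apply (toT_bij h2).1
    rw [toT_lin]
    have h3' : (toT r).k = 0 := h3
    have h4' : (toT r).s = 0 := h4
    ext <;> simp [h3', h4']

lemma universallyKoszul_JB (h2 : ∃ i j : Fin n, i ≠ j ∧ b i ≠ 0 ∧ b j ≠ 0) :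
    UniversallyKoszul (JB b) := by
  intro I hI
  have hcol : ColonProp (IsForm (JB b) 1) :=
    ColonProp.of_equiv (eT h2) (IsForm (JB b) 1) (fun f => TLin f) (isForm_iff h2)
      (colonProp_TB h2)
  obtain ⟨c, g, A, h1, h2, h3, h4, h5⟩ := exists_linear_resolution (L := IsForm (JB b) 1)
    (IsForm.zero 1) (fun _ h => h.neg) (liftProp JB_hom) hcol I hI
  exact ⟨c, g, A, h1, h2, h3, h4, h5⟩

lemma mem_JB_iff (h2 : ∃ i j : Fin n, i ≠ j ∧ b i ≠ 0 ∧ b j ≠ 0)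
    (p : MvPolynomial (Fin n) K) : p ∈ JB b ↔ toT (Ideal.Quotient.mk (JB b) p) = 0 := by
  rw [← Ideal.Quotient.eq_zero_iff_mem]
  constructor
  · intro h
    rw [h, map_zero]
  · intro h
    apply (toT_bij h2).1
    rw [h, map_zero]

lemma lin_mul_mem (h2 : ∃ i j : Fin n, i ≠ j ∧ b i ≠ 0 ∧ b j ≠ 0) (v w : Fin n → K) :
    lin v * lin w ∈ JB b ↔ bil b v w = 0 := by
  rw [mem_JB_iff h2, map_mul, map_mul, toT_lin, toT_lin]
  constructor
  · intro h
    have := congrArg TB.s h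
    simpa using this
  · intro h
    ext <;> simp [h]

lemma lin_cube_mem (h2 : ∃ i j : Fin n, i ≠ j ∧ b i ≠ 0 ∧ b j ≠ 0) (v : Fin n → K) :
    lin v ^ 3 ∈ JB b := by
  rw [mem_JB_iff h2, map_pow, map_pow, toT_lin, pow_succ, pow_two]
  ext <;> simp

end Pool.Agent.Y836.UK
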