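import Pool.Agent.Y836.UK.Conc

/-!
# Anisotropic forms: there is no quadratic Gröbner basis

If the diagonal form with the coefficients `b` has no isotropic vectors outside its radical, then
the ideal `JB b` has no quadratic Gröbner basis in any coordinates. Let `X_a X_c` be the smallest
product of two variables outside the ideal. It is not the leading monomial of a quadric of the
ideal. If `a = c`, then `X_a ^ 3` belongs to the ideal, a contradiction. If `X_a < X_c`, then
`X_a ^ 2` belongs to the ideal, so the linear form `X_a` is in the radical, a contradiction.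
-/

set_option autoImplicit false

namespace Pool.Agent.Y836.UK

open Pool.Agent.Results.MP_8dd27d_al.Disproof MvPolynomial

universe u w

variable {K : Type u} [Field K] {n : ℕ} {b : Fin n → K}

/-- A linear automorphism is surjective on linear forms. -/
lemma exists_preimage (φ : MvPolynomial (Fin n) K ≃ₐ[K] MvPolynomial (Fin n) K)
    (hφ : ∀ i, (φ (X i)).IsHomogeneous 1) (i : Fin n) :
    ∃ v : Fin n → K, φ (lin v) = X i := by
  have hmap : ∀ p ∈ homogeneousSubmodule (Fin n) K 1,
      φ.toLinearMap p ∈ homogeneousSubmodule (Fin n) K 1 := by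
    intro p hp
    rw [homogeneousSubmodule_one_eq_span_X] at hp
    induction hp using Submodule.span_induction with
    | mem f hf =>
      obtain ⟨j, rfl⟩ := hf
      exact hφ j
    | zero => rw [map_zero]; exact Submodule.zero_mem _
    | add f g _ _ hf hg => rw [map_add]; exact Submodule.add_mem _ hf hg
    | smul k f _ hf => rw [map_smul]; exact Submodule.smul_mem _ _ hf
  let f : homogeneousSubmodule (Fin n) K 1 →ₗ[K] homogeneousSubmodule (Fin n) K 1 :=
    φ.toLinearMap.restrict hmap
  have hfin : FiniteDimensional K (homogeneousSubmodule (Fin n) K 1) := by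
    rw [homogeneousSubmodule_one_eq_span_X]
    exact FiniteDimensional.span_of_finite K (Set.finite_range _)
  have hinj : Function.Injective f := by
    intro p q hpq
    have := congrArg Subtype.val hpq
    exact Subtype.ext (φ.injective this)
  obtain ⟨l, hl⟩ := (LinearMap.injective_iff_surjective.mp hinj)
    ⟨X i, isHomogeneous_X _ _⟩
  obtain ⟨v, hv⟩ := exists_lin l.1 l.2
  exact ⟨v, by rw [← hv]; exact congrArg Subtype.val hl⟩

/-- An exponent of degree two is a sum of two unit exponents. -/
lemma exists_two (d : Fin n →₀ ℕ) (hd : d.degree = 2) :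
    ∃ i j : Fin n, d = Finsupp.single i 1 + Finsupp.single j 1 := by
  have h1 : d ≠ 0 := by
    rintro rfl
    simp at hd
  obtain ⟨i, hi⟩ := Finsupp.ne_iff.mp h1
  rw [Finsupp.zero_apply] at hi
  have h2 : Finsupp.single i 1 ≤ d := by
    rw [Finsupp.single_le_iff]
    omega
  obtain ⟨e, rfl⟩ := exists_add_of_le h2
  have h3 : e.degree = 1 := by
    rw [map_add, Finsupp.degree_single] at hd
    omega
  have h4 : e ≠ 0 := by
    rintro rfl
    simp at h3
  obtain ⟨j, hj⟩ := Finsupp.ne_iff.mp h4
  rw [Finsupp.zero_apply] at hj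
  have h5 : Finsupp.single j 1 ≤ e := by
    rw [Finsupp.single_le_iff]
    omega
  obtain ⟨f, rfl⟩ := exists_add_of_le h5
  have h6 : f.degree = 0 := by
    rw [map_add, Finsupp.degree_single] at h3
    omega
  have h7 : f = 0 := (Finsupp.degree_eq_zero_iff f).1 h6
  exact ⟨i, j, by rw [h7, add_zero]⟩

lemma not_gQuadratic (h2 : ∃ i j : Fin n, i ≠ j ∧ b i ≠ 0 ∧ b j ≠ 0)
    (han : ∀ t : Fin n → K, ∑ i, b i * t i ^ 2 = 0 → ∀ i, b i * t i = 0) :
    ¬ GQuadratic.{u, w} (JB b) := by
  classical
  rintro ⟨φ, m, hφ, hgb⟩
  choose A hA using exists_preimage φ hφ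
  have hmem : ∀ p, φ p ∈ (JB b).map φ ↔ p ∈ JB b := by
    intro p
    constructor
    · intro h
      rw [Ideal.mem_map_of_equiv] at h
      obtain ⟨x, hx, hxe⟩ := h
      rwa [← φ.injective hxe]
    · exact Ideal.mem_map_of_mem _
  have hXX : ∀ i j, (X i * X j : MvPolynomial (Fin n) K) ∈ (JB b).map φ ↔
      bil b (A i) (A j) = 0 := by
    intro i j
    rw [← hA i, ← hA j, ← map_mul, hmem, lin_mul_mem h2]
  have hX3 : ∀ i, (X i ^ 3 : MvPolynomial (Fin n) K) ∈ (JB b).map φ := by
    intro i
    rw [← hA i, ← map_pow, hmem]
    exact lin_cube_mem h2 _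
  let E : Finset (Fin n × Fin n) := Finset.univ.filter (fun p => bil b (A p.1) (A p.2) ≠ 0)
  have hE : E.Nonempty := by
    by_contra hemp
    rw [Finset.not_nonempty_iff_eq_empty] at hemp
    have hall : ∀ i j, bil b (A i) (A j) = 0 := by
      intro i j
      by_contra hne
      have : (i, j) ∈ E := by
        simp only [E, Finset.mem_filter, Finset.mem_univ, true_and]
        exact hne
      rw [hemp] at this
      exact absurd this (Finset.notMem_empty _)
    have h2' := h2
    obtain ⟨i0, j0, -, hi0, -⟩ := h2'
    obtain ⟨c, hc⟩ := exists_lin _ (hφ i0)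
    have h3 : φ (X i0 * X i0) ∈ (JB b).map φ := by
      rw [map_mul, hc, lin, Finset.sum_mul_sum]
      refine Ideal.sum_mem _ fun i _ => Ideal.sum_mem _ fun j _ => ?_
      have : (C (c i) * X i * (C (c j) * X j) : MvPolynomial (Fin n) K) =
          C (c i) * C (c j) * (X i * X j) := by ring
      rw [this]
      exact Ideal.mul_mem_left _ _ ((hXX i j).2 (hall i j))
    rw [hmem, mem_JB_iff h2, map_mul, map_mul, toT_X] at h3
    have h4 := congrArg TB.s h3
    simp [hi0] at h4
  obtain ⟨⟨a, c⟩, hac, hmin⟩ := E.exists_min_image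
    (fun p => m.toSyn (Finsupp.single p.1 1 + Finsupp.single p.2 1)) hE
  have hac' : bil b (A a) (A c) ≠ 0 := by
    simpa only [E, Finset.mem_filter, Finset.mem_univ, true_and] using hac
  have hmin' : ∀ i j, m.toSyn (Finsupp.single i 1 + Finsupp.single j 1) <
      m.toSyn (Finsupp.single a 1 + Finsupp.single c 1) → bil b (A i) (A j) = 0 := by
    intro i j hlt
    by_contra hne
    have hin : (i, j) ∈ E := by
      simp only [E, Finset.mem_filter, Finset.mem_univ, true_and]
      exact hne
    exact absurd (hmin (i, j) hin) (not_le_of_gt hlt)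
  -- `X a * X c` is not the leading monomial of a quadric of the ideal
  have hno : ∀ q ∈ (JB b).map φ, q ≠ 0 → q.IsHomogeneous 2 →
      m.degree q = Finsupp.single a 1 + Finsupp.single c 1 → False := by
    intro q hq hq0 hqh hqd
    have hsupp : ∀ d ∈ q.support, d ≠ Finsupp.single a 1 + Finsupp.single c 1 →
        monomial d (coeff d q) ∈ (JB b).map φ := by
      intro d hd hne
      have hdeg : d.degree = 2 := by
        by_contra hne
        rw [mem_support_iff] at hd
        exact hd (hqh.coeff_eq_zero hne)
      obtain ⟨i, j, rfl⟩ := exists_two d hdeg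
      have hle := MonomialOrder.le_degree (m := m) hd
      rw [hqd] at hle
      have hlt := lt_of_le_of_ne hle (fun h => hne (m.toSyn.injective h))
      have hx := (hXX i j).2 (hmin' i j hlt)
      have e : (monomial (Finsupp.single i 1 + Finsupp.single j 1)
          (coeff (Finsupp.single i 1 + Finsupp.single j 1) q) : MvPolynomial (Fin n) K) =
          C (coeff (Finsupp.single i 1 + Finsupp.single j 1) q) * (X i * X j) := by
        rw [X, X, monomial_mul, C_mul_monomial]
        simp
      rw [e]
      exact Ideal.mul_mem_left _ _ hx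
    have hin := (MonomialOrder.degree_mem_support_iff (m := m) q).mpr hq0
    rw [hqd] at hin
    have e1 : monomial (Finsupp.single a 1 + Finsupp.single c 1)
        (coeff (Finsupp.single a 1 + Finsupp.single c 1) q) = q -
          ∑ d ∈ q.support.erase (Finsupp.single a 1 + Finsupp.single c 1),
            monomial d (coeff d q) := by
      rw [eq_sub_iff_add_eq, Finset.add_sum_erase _ (fun d => monomial d (coeff d q)) hin]
      exact support_sum_monomial_coeff q
    have h3 : monomial (Finsupp.single a 1 + Finsupp.single c 1)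
        (coeff (Finsupp.single a 1 + Finsupp.single c 1) q) ∈ (JB b).map φ := by
      rw [e1]
      exact Ideal.sub_mem _ hq (Ideal.sum_mem _ fun d hd =>
        hsupp d (Finset.mem_of_mem_erase hd) (Finset.ne_of_mem_erase hd))
    rw [mem_support_iff] at hin
    have e2 : (X a * X c : MvPolynomial (Fin n) K) =
        C (coeff (Finsupp.single a 1 + Finsupp.single c 1) q)⁻¹ *
          monomial (Finsupp.single a 1 + Finsupp.single c 1)
            (coeff (Finsupp.single a 1 + Finsupp.single c 1) q) := by
      rw [C_mul_monomial, inv_mul_cancel₀ hin, X, X, monomial_mul]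
      simp
    apply hac'
    rw [← hXX, e2]
    exact Ideal.mul_mem_left _ _ h3
  -- quadrics with the leading monomial `X i ^ 2`
  have hsq : ∀ i : Fin n, ∃ q ∈ (JB b).map φ, q ≠ 0 ∧ q.IsHomogeneous 2 ∧
      m.degree q = Finsupp.single i 1 + Finsupp.single i 1 := by
    intro i
    have h4 : (X i : MvPolynomial (Fin n) K) ^ 3 ≠ 0 := pow_ne_zero 3 (X_ne_zero i)
    obtain ⟨q, hqJ, hq0, hqh, hqd⟩ := hgb _ (hX3 i) h4
    refine ⟨q, hqJ, hq0, hqh, ?_⟩
    have h3 : m.degree ((X i : MvPolynomial (Fin n) K) ^ 3) = Finsupp.single i 3 := by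
      rw [MonomialOrder.degree_pow, MonomialOrder.degree_X]
      simp
    rw [h3] at hqd
    have h5 : (m.degree q).degree = 2 := by
      by_contra hne
      have h6 := (MonomialOrder.degree_mem_support_iff (m := m) q).mpr hq0
      rw [mem_support_iff] at h6
      exact h6 (hqh.coeff_eq_zero hne)
    obtain ⟨k, l, hkl⟩ := exists_two _ h5
    rw [hkl] at hqd ⊢
    have hk : k = i := by
      by_contra hne
      have := hqd k
      rw [Finsupp.single_eq_of_ne hne] at this
      simp at this
    have hl : l = i := by
      by_contra hne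
      have := hqd l
      rw [Finsupp.single_eq_of_ne hne] at this
      simp at this
    rw [hk, hl]
  have hiso : ∀ i, bil b (A i) (A i) = 0 → ∀ k, b k * A i k = 0 := by
    intro i hi
    apply han
    rw [← hi]
    exact Finset.sum_congr rfl fun k _ => by ring
  rcases lt_trichotomy (m.toSyn (Finsupp.single a 1)) (m.toSyn (Finsupp.single c 1)) with h | h | h
  · have h3 := hmin' a a (by rw [map_add, map_add]; exact add_lt_add_right h _)
    apply hac'
    rw [bil_comm]
    exact bil_of_rad _ _ (hiso a h3)
  · have h3 := m.toSyn.injective h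
    have h4 : a = c := by
      by_contra hne
      have := DFunLike.congr_fun h3 a
      rw [Finsupp.single_eq_same, Finsupp.single_eq_of_ne hne] at this
      exact one_ne_zero this
    obtain ⟨q, hq, hq0, hqh, hqd⟩ := hsq a
    exact hno q hq hq0 hqh (by rw [hqd, ← h4])
  · have h3 := hmin' c c (by rw [map_add, map_add]; exact add_lt_add_left h _)
    apply hac'
    exact bil_of_rad _ _ (hiso c h3)

end Pool.Agent.Y836.UK
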