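import Pool.Agent.Results.MP_8dd27d_al.Disproof

/-!
# The algebras with Hilbert function `1, n, 1` and diagonal multiplication

`TB b` has the basis `1, x_1, …, x_n, s` and `x_i x_j = 0` for `i ≠ j`, `x_i ^ 2 = b_i s`. If at
least two of the `b_i` are nonzero, then the colon ideals of linear ideals by linear forms are
linear.
-/

set_option autoImplicit false

namespace Pool.Agent.Y836.UK

open Pool.Agent.Results.MP_8dd27d_al.Disproof

universe u w

section Bil

variable {K : Type u} [Field K] {n : ℕ} {b : Fin n → K}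

/-- The diagonal symmetric bilinear form with coefficients `b`. -/
def bil (b : Fin n → K) (v w : Fin n → K) : K := ∑ i, b i * v i * w i

lemma bil_comm (v w : Fin n → K) : bil b v w = bil b w v :=
  Finset.sum_congr rfl fun i _ => by ring

@[simp] lemma bil_add_left (v v' w : Fin n → K) :
    bil b (v + v') w = bil b v w + bil b v' w := by
  unfold bil
  rw [← Finset.sum_add_distrib]
  exact Finset.sum_congr rfl fun i _ => by simp only [Pi.add_apply]; ring

@[simp] lemma bil_add_right (v w w' : Fin n → K) :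
    bil b v (w + w') = bil b v w + bil b v w' := by
  rw [bil_comm, bil_add_left, bil_comm w, bil_comm w']

@[simp] lemma bil_smul_left (k : K) (v w : Fin n → K) : bil b (k • v) w = k * bil b v w := by
  unfold bil
  rw [Finset.mul_sum]
  exact Finset.sum_congr rfl fun i _ => by simp only [Pi.smul_apply, smul_eq_mul]; ring

@[simp] lemma bil_smul_right (k : K) (v w : Fin n → K) : bil b v (k • w) = k * bil b v w := by
  rw [bil_comm, bil_smul_left, bil_comm w]

@[simp] lemma bil_zero_left (w : Fin n → K) : bil b 0 w = 0 := by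
  simp [bil]

@[simp] lemma bil_zero_right (w : Fin n → K) : bil b w 0 = 0 := by
  simp [bil]

@[simp] lemma bil_single_left (i : Fin n) (t : K) (w : Fin n → K) :
    bil b (Pi.single i t) w = b i * t * w i := by
  unfold bil
  rw [Fintype.sum_eq_single i]
  · simp
  · intro j hj
    simp [Pi.single_eq_of_ne hj]

lemma bil_of_rad (v w : Fin n → K) (h : ∀ i, b i * w i = 0) : bil b v w = 0 :=
  Finset.sum_eq_zero fun i _ => by
    have : b i * v i * w i = v i * (b i * w i) := by ring
    rw [this, h i, mul_zero]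

end Bil

/-- The algebra with the basis `1, x_1, …, x_n, s` and `x_i x_j = 0` for `i ≠ j`,
`x_i ^ 2 = b_i s`. -/
@[ext]
structure TB {K : Type u} {n : ℕ} (b : Fin n → K) : Type u where
  k : K
  v : Fin n → K
  s : K

namespace TB

variable {K : Type u} [Field K] {n : ℕ} {b : Fin n → K}

instance : Zero (TB b) := ⟨⟨0, 0, 0⟩⟩
instance : One (TB b) := ⟨⟨1, 0, 0⟩⟩
instance : Add (TB b) := ⟨fun x y => ⟨x.k + y.k, x.v + y.v, x.s + y.s⟩⟩
instance : Neg (TB b) := ⟨fun x => ⟨-x.k, -x.v, -x.s⟩⟩
instance : Mul (TB b) := ⟨fun x y => ⟨x.k * y.k, x.k • y.v + y.k • x.v,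
  x.k * y.s + x.s * y.k + bil b x.v y.v⟩⟩

@[simp] lemma zero_k : (0 : TB b).k = 0 := rfl
@[simp] lemma zero_v : (0 : TB b).v = 0 := rfl
@[simp] lemma zero_s : (0 : TB b).s = 0 := rfl
@[simp] lemma one_k : (1 : TB b).k = 1 := rfl
@[simp] lemma one_v : (1 : TB b).v = 0 := rfl
@[simp] lemma one_s : (1 : TB b).s = 0 := rfl
@[simp] lemma add_k (x y : TB b) : (x + y).k = x.k + y.k := rfl
@[simp] lemma add_v (x y : TB b) : (x + y).v = x.v + y.v := rfl
@[simp] lemma add_s (x y : TB b) : (x + y).s = x.s + y.s := rfl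
@[simp] lemma neg_k (x : TB b) : (-x).k = -x.k := rfl
@[simp] lemma neg_v (x : TB b) : (-x).v = -x.v := rfl
@[simp] lemma neg_s (x : TB b) : (-x).s = -x.s := rfl
@[simp] lemma mul_k (x y : TB b) : (x * y).k = x.k * y.k := rfl
@[simp] lemma mul_v (x y : TB b) : (x * y).v = x.k • y.v + y.k • x.v := rfl
@[simp] lemma mul_s (x y : TB b) :
    (x * y).s = x.k * y.s + x.s * y.k + bil b x.v y.v := rfl

instance : CommRing (TB b) where
  add_assoc x y z := by ext <;> simp [add_assoc]
  zero_add x := by ext <;> simp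
  add_zero x := by ext <;> simp
  nsmul := nsmulRec
  add_comm x y := by ext <;> simp [add_comm]
  left_distrib x y z := by ext <;> simp <;> ring
  right_distrib x y z := by ext <;> simp <;> ring
  zero_mul x := by ext <;> simp
  mul_zero x := by ext <;> simp
  mul_assoc x y z := by ext <;> simp <;> ring
  one_mul x := by ext <;> simp
  mul_one x := by ext <;> simp
  zsmul := zsmulRec
  neg_add_cancel x := by ext <;> simp
  mul_comm x y := by
    ext
    · simp [mul_comm]
    · simp; ring
    · simp only [mul_s]; rw [bil_comm]; ring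

end TB

variable {K : Type u} [Field K] {n : ℕ} {b : Fin n → K}

/-- linear forms of the model -/
def TLin (f : TB b) : Prop := f.k = 0 ∧ f.s = 0

lemma soc_mem (D : Ideal (TB b)) (p : Fin n → K) (i : Fin n) (hb : b i * p i ≠ 0)
    (hp : (⟨0, p, 0⟩ : TB b) ∈ D) (t : K) : (⟨0, 0, t⟩ : TB b) ∈ D := by
  have : (⟨0, 0, t⟩ : TB b) = ⟨0, Pi.single i (t * (b i * p i)⁻¹), 0⟩ * ⟨0, p, 0⟩ := by
    ext
    · simp
    · simp
    · simp only [TB.mul_s, bil_single_left]
      have : b i * (t * (b i * p i)⁻¹) * p i = t * ((b i * p i) * (b i * p i)⁻¹) := by ring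
      rw [this, mul_inv_cancel₀ hb]
      ring
  rw [this]
  exact D.mul_mem_left _ hp

lemma mem_span_iff (P : (Fin n → K) → Prop) (h0 : P 0) (hadd : ∀ v w, P v → P w → P (v + w))
    (hsm : ∀ (k : K) (v), P v → P (k • v)) (hex : ∃ v i, P v ∧ b i * v i ≠ 0) (f : TB b) :
    f ∈ Ideal.span {r : TB b | TLin r ∧ P r.v} ↔ f.k = 0 ∧ P f.v := by
  constructor
  · intro h
    induction h using Submodule.span_induction with
    | mem f hf => exact ⟨hf.1.1, hf.2⟩
    | zero => exact ⟨rfl, h0⟩
    | add f g _ _ hf hg => exact ⟨by simp [hf.1, hg.1], hadd _ _ hf.2 hg.2⟩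
    | smul a f _ hf =>
      refine ⟨by simp [hf.1], ?_⟩
      have : (a • f).v = a.k • f.v := by
        rw [smul_eq_mul, TB.mul_v, hf.1, zero_smul, add_zero]
      rw [this]
      exact hsm _ _ hf.2
  · rintro ⟨hk, hP⟩
    have : f = ⟨0, f.v, 0⟩ + ⟨0, 0, f.s⟩ := by
      ext <;> simp [hk]
    rw [this]
    obtain ⟨v, i, hv, hi⟩ := hex
    have m1 : (⟨0, f.v, 0⟩ : TB b) ∈ Ideal.span {r : TB b | TLin r ∧ P r.v} :=
      Ideal.subset_span ⟨⟨rfl, rfl⟩, hP⟩
    have m2 : (⟨0, v, 0⟩ : TB b) ∈ Ideal.span {r : TB b | TLin r ∧ P r.v} :=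
      Ideal.subset_span ⟨⟨rfl, rfl⟩, hv⟩
    exact Ideal.add_mem _ m1 (soc_mem _ v i hi m2 _)

lemma colonProp_TB (h2 : ∃ i j : Fin n, i ≠ j ∧ b i ≠ 0 ∧ b j ≠ 0) :
    ColonProp (fun r : TB b => TLin r) := by
  obtain ⟨i, j, hij, hi, hj⟩ := h2
  rintro D hD ⟨k, w, s⟩ ⟨hk, hs⟩ hcD
  simp only at hk hs
  subst hk hs
  by_cases hsoc : (⟨0, 0, 1⟩ : TB b) ∈ D
  · -- the colon ideal is the maximal ideal
    have hsoc' : ∀ t : K, (⟨0, 0, t⟩ : TB b) ∈ D := by
      intro t
      have : (⟨0, 0, t⟩ : TB b) = ⟨t, 0, 0⟩ * ⟨0, 0, 1⟩ := by ext <;> simp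
      rw [this]
      exact D.mul_mem_left _ hsoc
    have hfin : Submodule.comap (LinearMap.toSpanSingleton (TB b) (TB b) ⟨0, w, 0⟩) D =
        Ideal.span {r : TB b | TLin r ∧ (fun _ => True) r.v} := by
      ext g
      rw [mem_comap_iff, mem_span_iff (b := b) (fun _ => True) trivial (fun _ _ _ _ => trivial)
        (fun _ _ _ => trivial) ⟨Pi.single i 1, i, trivial, by simpa using hi⟩]
      constructor
      · intro hg
        refine ⟨?_, trivial⟩
        by_contra hne
        apply hcD
        have : (⟨0, w, 0⟩ : TB b) = ⟨g.k⁻¹, 0, 0⟩ * (g * ⟨0, w, 0⟩) +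
            ⟨0, 0, - (g.k⁻¹ * bil b g.v w)⟩ := by
          ext <;> simp [hne]
        rw [this]
        exact D.add_mem (D.mul_mem_left _ hg) (hsoc' _)
      · rintro ⟨hg, -⟩
        have : g * ⟨0, w, 0⟩ = (⟨0, 0, bil b g.v w⟩ : TB b) := by
          ext <;> simp [hg]
        rw [this]
        exact hsoc' _
    rw [hfin]
    exact linGen_span _ (fun r hr => hr.1)
  · have hD' : D = Ideal.span {r | r ∈ D ∧ TLin r} := hD
    have hrad : ∀ f ∈ D, f.k = 0 ∧ f.s = 0 ∧ ∀ i, b i * f.v i = 0 := by
      intro f hf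
      rw [hD'] at hf
      induction hf using Submodule.span_induction with
      | mem f hf =>
        obtain ⟨hfD, h1, h2⟩ := hf
        refine ⟨h1, h2, fun l => ?_⟩
        by_contra hne
        apply hsoc
        refine soc_mem D f.v l hne ?_ 1
        have : (⟨0, f.v, 0⟩ : TB b) = f := by ext <;> simp [h1, h2]
        rw [this]
        exact hfD
      | zero => exact ⟨rfl, rfl, fun l => by simp⟩
      | add f g _ _ hf hg =>
        refine ⟨by simp [hf.1, hg.1], by simp [hf.2.1, hg.2.1], fun l => ?_⟩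
        rw [TB.add_v, Pi.add_apply, mul_add, hf.2.2 l, hg.2.2 l, add_zero]
      | smul a f _ hf =>
        refine ⟨by simp [hf.1], ?_, fun l => ?_⟩
        · rw [smul_eq_mul, TB.mul_s, hf.1, hf.2.1, bil_of_rad _ _ hf.2.2]
          ring
        · rw [smul_eq_mul, TB.mul_v, hf.1, zero_smul, add_zero, Pi.smul_apply, smul_eq_mul]
          have : b l * (a.k * f.v l) = a.k * (b l * f.v l) := by ring
          rw [this, hf.2.2 l, mul_zero]
    have hfin : Submodule.comap (LinearMap.toSpanSingleton (TB b) (TB b) ⟨0, w, 0⟩) D =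
        Ideal.span {r : TB b | TLin r ∧ (fun v => bil b v w = 0) r.v} := by
      ext g
      rw [mem_comap_iff, mem_span_iff (b := b) (fun v => bil b v w = 0) (bil_zero_left w)
        (fun v v' h h' => by rw [bil_add_left, h, h', add_zero])
        (fun k v h => by rw [bil_smul_left, h, mul_zero]) ?_]
      · constructor
        · intro hg
          obtain ⟨h1, h2, h3⟩ := hrad _ hg
          have h4 : bil b g.v w = 0 := by simpa using h2
          refine ⟨?_, h4⟩
          by_contra hne
          apply hcD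
          have : (⟨0, w, 0⟩ : TB b) = ⟨g.k⁻¹, 0, 0⟩ * (g * ⟨0, w, 0⟩) := by
            ext <;> simp [hne, h4]
          rw [this]
          exact D.mul_mem_left _ hg
        · rintro ⟨hg, h4⟩
          have h4' : bil b g.v w = 0 := h4
          have : g * ⟨0, w, 0⟩ = (0 : TB b) := by
            ext <;> simp [hg, h4']
          rw [this]
          exact D.zero_mem
      · by_cases hwj : w j = 0
        · refine ⟨Pi.single j 1, j, ?_, by simpa using hj⟩
          show bil b (Pi.single j 1) w = 0
          rw [bil_single_left, hwj, mul_zero]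
        · refine ⟨Pi.single i (b j * w j) + Pi.single j (-(b i * w i)), i, ?_, ?_⟩
          · show bil b _ w = 0
            rw [bil_add_left, bil_single_left, bil_single_left]
            ring
          · rw [Pi.add_apply, Pi.single_eq_same, Pi.single_eq_of_ne hij, add_zero]
            exact mul_ne_zero hi (mul_ne_zero hj hwj)
    rw [hfin]
    exact linGen_span _ (fun r hr => hr.1)

end Pool.Agent.Y836.UK
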